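import Pool.Agent.Helper880_MX.Ten
import Pool.Agent.Helper880_AJ.Cnt
import Pool.Agent.Helper880_UN.Tra
import Pool.Agent.Helper880_UN.Scl2

/-!
# Integral points in the Hodge locus of variations of mixed Hodge structures

Let `V` be a variation of **mixed** Hodge structures of geometric origin over `ℚ` on an affine line minus finitely many points, for
example the relative cohomology of a family of pairs `(X_x, Y_x)`, with **any** algebraic monodromy group. Let `c` be a rational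
point, `V_0` a constant mixed Hodge structure, and `r` the number of the periods of `V_c` and `V_0` (the transcendence degree up
to a common factor, plus `1` if `V` has a singularity at `c`). The theorem (with theorems of André and Deligne, which are not in the Lean) says:

1. For integers `t_1, …, t_N` in a window, that is `(t_i - t_j + 2)^E ≤ t_j` and `t_i ≡ t_j` modulo `G`, the points `c + 1 / t_j` satisfy:
   **the sum of the codimensions of the special subvarieties through the points `c + 1 / t_j` is at most `r`**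
   (`codim_(Γ∖D) Γ_Z∖D_Z` in the language of the problem, `SumOfCodimensions`). So at most `r` of them are in the Hodge locus, at
   most `r / 2` of them are atypical; for `N = 1`: the codimension is at most `r` for all `t ≥ 2^E`, and if `r ≤ 1` then no
   integer `t ≥ 2^E` is atypical. The exponent `E` depends on `V`, on `N` and on the periods of `V_c`. For `N = 1` this is also true
   for **all** rational points `c + a / t`, `a ≠ 0`, `t ≥ (|a| + 2)^E`, and all branches of the logarithm.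
2. **For every centre `c`, the Hodge locus contains at most `K x^(1 - δ)` of the points `c + 1 / t`, `t ≤ x`**, `δ > 0`. Here `K`, `δ`
   depend only on the periods of `V_c`, not on the weight filtration and on the Lie algebra `𝔪`. The same is true relative to a constant
   mixed Hodge structure `V_0`: for all other `t` the Hodge tensors on `V_0` and `V_t` are the Hodge tensors on `V_0` and on a
   very general fibre.

Over `ℂ` one knows that the Hodge locus is a countable union of special subvarieties; on a curve it is a countable set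
which may be dense. If the Hodge classes in question are absolute Hodge classes (abelian type, Deligne, mixed case Brylinski)
then the statement 2 is a consequence of Hilbert's irreducibility theorem and of the `ℓ`-adic theory; for general `V` this is
not known, and here no such assumption is made.

**Setting.** Let `V_x` be a fibre with all Tate twists removed; for tensors in `V` and its dual take `V ⊕ V^∨` for `V`. The period matrix with
respect to a de Rham basis over `ℚ(x)` adapted to the Hodge filtration and to a Betti basis is `P(x) = C exp (M log x) Z(x)`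
where `Z` is an `n × n` matrix of G-functions over `ℚ` (we put `c = 0`), `M` is a nilpotent rational matrix, and `C` is
the matrix of the periods of `V_c` (of the limit for `M ≠ 0`). Let `V_0` be any mixed Hodge structure with period matrix `C₀`. Let `𝔤` be a
Lie algebra of infinitesimal symmetries of `Z` which is normalised by `M`; then `C 𝔤 C⁻¹` contains the Lie algebra `𝔪` of the
algebraic monodromy group. The weight filtration `W` is a filtration of the Betti space by rational subspaces. The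
operator `φ_t` of Deligne's splitting `V_t = ⊕ I^(p,q)` is the multiplication by `p` on `I^(p,q)`; it splits the Hodge
filtration, it is in the Lie algebra of the Mumford–Tate group, and `φ_t + conj φ_t` is the multiplication by `k` on `Gr^W_k`
(`IsMixed`). A rational tensor `f` is a Hodge class (of type `(q, q)`) if `φ_t f = q f` (`IsHodge`). By the theorem of the fixed part
`φ_t - φ_c` is in `𝔪 ⊗ ℂ`, where `φ_c` is the operator of any other fibre, for example of a very general one, and `𝔪` is normalised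
by `φ_t`. A quotient of `𝔪` on which `φ_t` is trivial would be the Lie algebra of the monodromy group of a variation
without periods, so there is no such quotient (`NoTrivialQuotient`).

**Proof** (`Pool/Agent/Helper880_MX`, `Helper880_EX`, `Helper880_ZP`, `Helper880_UN`). By our theorem on `MP_d83ecd_ag`, for rational
Lie algebras `𝔥` which contain `φ₀ ⊕ φ_1 ⊕ … ⊕ φ_N` the codimension of `0 ⊕ (C 𝔤 C⁻¹)^N` in `𝔥 + Stab F` is at most `r`; this is proved with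
derivations of an ultraproduct of counterexamples which move the values `Z(1 / t_j)` in the directions of `𝔤`. We apply it
to the fibre product of rational Lie algebras `𝔥_j` over `𝔤𝔩(V_0)` (`sum_cod`); no condition on `𝔪` is necessary. The second
part is new in the mixed case: let `𝔫` be a rational Lie algebra in `𝔪`, stable under `φ`, which contains the part `𝔪^-` of
negative degree. Then `𝔫` contains `W_(-1) 𝔪`: if `X` has degree `a` and weight `k ≤ 0`, `k < a`, then modulo elements of smaller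
weight `conj X` has the negative degree `k - a` (`neg_mod`, `step`, `wt_in`), and `𝔫` is stable under complex conjugation. So `𝔫` contains
all elements of degree different from `0`; they generate an ideal, its rational closure is `𝔪` by `NoTrivialQuotient`
(`full`). So the codimension of all special fibres is at least `1`. The tensors are treated with the rational Lie
algebra of all block matrices which multiply the Hodge tensors by scalars (`killM`, `hodgeM`). The count follows from `N = r + 1`.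
-/

set_option autoImplicit false

open PowerSeries Filter
open scoped Matrix

namespace Pool.Agent.Results.MP_eeb1a4_ag.MixedIntegralPoints

/-- an integer polynomial as a power series with rational coefficients -/
noncomputable def toQ (P : Polynomial ℤ) : PowerSeries ℚ := ((P.map (Int.castRingHom ℚ) : Polynomial ℚ) : PowerSeries ℚ)

/-- the power series `P(u^e)` -/
noncomputable def atPow (e : ℕ) (P : Polynomial ℤ) : PowerSeries ℂ :=
  ((Polynomial.expand ℂ e (P.map (Int.castRingHom ℂ)) : Polynomial ℂ) : PowerSeries ℂ)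

/-- the matrices `G_s` over `ℤ[x]` with `T^s y^(s) = G_s y` for all solutions `y` of `T y' = A y` -/
noncomputable def iter {r : ℕ} (T : Polynomial ℤ) (A : Fin r → Fin r → Polynomial ℤ) : ℕ → Fin r → Fin r → Polynomial ℤ
  | 0 => fun i j => if i = j then 1 else 0
  | s + 1 => fun i j => T * Polynomial.derivative (iter T A s i j) + ∑ l, iter T A s i l * A l j -
      (s : Polynomial ℤ) * (Polynomial.derivative T * iter T A s i j)

/-- The system `T y' = A y` has a fundamental matrix of solutions of the form `u^(-M) ∑_n Φ_n(u) (log u)^n` with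
`u^e = x` and convergent power series `Φ_n`: the point `0` is regular or a regular singularity with rational
exponents. -/
def QuasiUnipotent {r : ℕ} (T : Polynomial ℤ) (A : Fin r → Fin r → Polynomial ℤ) : Prop :=
  ∃ (e M : ℕ) (K : ℝ) (Φ : Matrix (Fin r) (Fin r) (Polynomial (PowerSeries ℂ))), 1 ≤ e ∧ Φ.det ≠ 0 ∧
    (∀ i j n m, ‖coeff m ((Φ i j).coeff n)‖ ≤ K ^ (m + 1)) ∧
    ∀ i j n, atPow e T * (X * PowerSeries.derivative ℂ ((Φ i j).coeff n) +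
        ((n : PowerSeries ℂ) + 1) * (Φ i j).coeff (n + 1) - (M : PowerSeries ℂ) * (Φ i j).coeff n) =
      (e : PowerSeries ℂ) * X ^ e * ∑ l, atPow e (A i l) * (Φ l j).coeff n

/-- `h_1, ..., h_r` are G-functions with rational coefficients which solve the differential system `T y' = A y`, with
the conditions of Siegel and Galochkin, and `0` is a regular point or a regular singularity with rational exponents of
the system. -/
structure GFamily {r : ℕ} (T : Polynomial ℤ) (A : Fin r → Fin r → Polynomial ℤ) (h : Fin r → PowerSeries ℚ) : Prop where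
  /-- the denominator is not zero -/
  T_ne : T ≠ 0
  /-- the differential equations -/
  ode : ∀ i, toQ T * PowerSeries.derivative ℚ (h i) = ∑ j, toQ (A i j) * h j
  /-- the coefficients have geometric growth -/
  size : ∃ C : ℝ, ∀ i m, |((coeff m (h i) : ℚ) : ℝ)| ≤ C ^ (m + 1)
  /-- the common denominators of the coefficients have geometric growth -/
  den : ∃ C : ℝ, ∀ m : ℕ, ∃ d : ℕ, 0 < d ∧ (d : ℝ) ≤ C ^ (m + 1) ∧ ∀ i, ∀ j ≤ m, ∃ a : ℤ, (d : ℚ) * coeff j (h i) = a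
  /-- Galochkin's condition: the common denominators of the matrices `G_s / s!` have geometric growth -/
  galochkin : ∃ C : ℝ, ∀ m : ℕ, ∃ d : ℕ, 0 < d ∧ (d : ℝ) ≤ C ^ (m + 1) ∧ ∀ s ≤ m, ∀ i j,
    ∃ H : Polynomial ℤ, (d : Polynomial ℤ) * iter T A s i j = (s.factorial : Polynomial ℤ) * H
  /-- the local exponents at `0` are rational and the singularity is regular -/
  regular : QuasiUnipotent T A

section family
variable {n : ℕ}

/-- the entries of a matrix -/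
def entries (Z : Matrix (Fin n) (Fin n) (PowerSeries ℚ)) : Fin (n * n) → PowerSeries ℚ := fun a =>
  Z (finProdFinEquiv.symm a).1 (finProdFinEquiv.symm a).2

/-- rational matrices as complex matrices -/
def toC (M : Matrix (Fin n) (Fin n) ℚ) : Matrix (Fin n) (Fin n) ℂ := M.map fun x : ℚ => (x : ℂ)

/-- the matrix `Z(1 / t)` -/
noncomputable def value (Z : Matrix (Fin n) (Fin n) (PowerSeries ℚ)) (t : ℕ) : Matrix (Fin n) (Fin n) ℂ :=
  Matrix.of fun i j => ((∑' k : ℕ, ((coeff k (Z i j) : ℚ) : ℝ) * (1 / (t : ℝ)) ^ k : ℝ) : ℂ)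

/-- the period matrix `C exp (M log x) Z(x)` at `x = 1 / t` -/
noncomputable def period (C : Matrix (Fin n) (Fin n) ℂ) (M : Matrix (Fin n) (Fin n) ℚ)
    (Z : Matrix (Fin n) (Fin n) (PowerSeries ℚ)) (t : ℕ) : Matrix (Fin n) (Fin n) ℂ :=
  C * (NormedSpace.exp ((-((Real.log (t : ℝ) : ℝ) : ℂ)) • toC M) * value Z t)

/-- the matrix `Z(u)` for a real number `u` -/
noncomputable def valueAt (Z : Matrix (Fin n) (Fin n) (PowerSeries ℚ)) (u : ℝ) : Matrix (Fin n) (Fin n) ℂ :=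
  Matrix.of fun i j => ((∑' k : ℕ, ((coeff k (Z i j) : ℚ) : ℝ) * u ^ k : ℝ) : ℂ)

/-- the matrix `C exp (-L M) Z(u)`; it is the period matrix at `u = x` if `L = -log x` -/
noncomputable def periodAt (C : Matrix (Fin n) (Fin n) ℂ) (M : Matrix (Fin n) (Fin n) ℚ) (L : ℂ)
    (Z : Matrix (Fin n) (Fin n) (PowerSeries ℚ)) (u : ℝ) : Matrix (Fin n) (Fin n) ℂ :=
  C * (NormedSpace.exp ((-L) • toC M) * valueAt Z u)

/-- the matrix of power series with complex coefficients -/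
noncomputable def overC (Z : Matrix (Fin n) (Fin n) (PowerSeries ℚ)) : Matrix (Fin n) (Fin n) (PowerSeries ℂ) :=
  Z.map (PowerSeries.map (algebraMap ℚ ℂ))

/-- `X` is an infinitesimal symmetry of `Z`: for all polynomial relations `R(x, Z(x)) = 0` over `ℂ[x]` the derivative of
`R(x, (1 + ε X) Z(x))` at `ε = 0` is zero. -/
def Symmetry (Z : Matrix (Fin n) (Fin n) (PowerSeries ℚ)) (X : Matrix (Fin n) (Fin n) ℂ) : Prop :=
  ∀ R : MvPolynomial (Fin n × Fin n) (Polynomial ℂ), MvPolynomial.aeval (fun b => overC Z b.1 b.2) R = 0 →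
    ∑ b, MvPolynomial.aeval (fun b => overC Z b.1 b.2) (MvPolynomial.pderiv b R) *
      (X.map (PowerSeries.C (R := ℂ)) * overC Z) b.1 b.2 = 0

/-- up to a common factor the entries of `C₀` and `C` are algebraic over a field generated by `s` numbers -/
def FewPeriods {r : ℕ} (s : ℕ) (C₀ : Matrix (Fin r) (Fin r) ℂ) (C : Matrix (Fin n) (Fin n) ℂ) : Prop :=
  ∃ (b : Fin s → ℂ) (κ : ℂ), κ ≠ 0 ∧ (∀ i j, IsAlgebraic (IntermediateField.adjoin ℚ (Set.range b)) (κ * C₀ i j)) ∧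
    ∀ i j, IsAlgebraic (IntermediateField.adjoin ℚ (Set.range b)) (κ * C i j)

end family

section hodge
variable {B : Type} [Fintype B] [DecidableEq B]

/-- The Hodge filtration `F^p`: it is spanned by the columns `b` of the period matrix with `p ≤ lev b`. -/
def hodge (lev : B → ℤ) (P : Matrix B B ℂ) (p : ℤ) : Submodule ℂ (B → ℂ) :=
  Submodule.span ℂ {v | ∃ b, p ≤ lev b ∧ v = fun i => P i b}

/-- `φ` splits the Hodge filtration: `F^p` is the sum of the eigenspaces of `φ` for the integral eigenvalues `q ≥ p`. -/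
def Splits (lev : B → ℤ) (P φ : Matrix B B ℂ) : Prop :=
  ∀ p, hodge lev P p = Submodule.span ℂ {v | ∃ q : ℤ, p ≤ q ∧ φ *ᵥ v = (q : ℂ) • v}

end hodge

section
variable {n N r₀ : ℕ}

/-- the block matrix `x ⊕ X_1 ⊕ … ⊕ X_N` -/
def total (x : Matrix (Fin r₀) (Fin r₀) ℂ) (X : Fin N → Matrix (Fin n) (Fin n) ℂ) :
    Matrix (Fin r₀ ⊕ (Fin n × Fin N)) (Fin r₀ ⊕ (Fin n × Fin N)) ℂ :=
  Matrix.fromBlocks x 0 0 (Matrix.blockDiagonal X)

/-- `C 𝔤 C⁻¹` -/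
def conjugate (C : Matrix (Fin n) (Fin n) ℂ) (𝔤 : Submodule ℂ (Matrix (Fin n) (Fin n) ℂ)) :
    Submodule ℂ (Matrix (Fin n) (Fin n) ℂ) where
  carrier := {Y | ∃ X ∈ 𝔤, Y = C * X * C⁻¹}
  zero_mem' := ⟨0, 𝔤.zero_mem, by rw [Matrix.mul_zero, Matrix.zero_mul]⟩
  add_mem' := by
    rintro _ _ ⟨X, hX, rfl⟩ ⟨Y, hY, rfl⟩
    exact ⟨X + Y, 𝔤.add_mem hX hY, by rw [Matrix.mul_add, Matrix.add_mul]⟩
  smul_mem' := by
    rintro c _ ⟨X, hX, rfl⟩
    exact ⟨c • X, 𝔤.smul_mem c hX, by rw [Matrix.mul_smul, Matrix.smul_mul]⟩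

end

section lie
variable {B : Type}

/-- the space is spanned by rational matrices -/
def IsRational (W : Submodule ℂ (Matrix B B ℂ)) : Prop :=
  W ≤ Submodule.span ℂ {X | X ∈ W ∧ ∀ a b, ∃ q : ℚ, X a b = q}

/-- the space is spanned by rational vectors -/
def IsRationalSpace (U : Submodule ℂ (B → ℂ)) : Prop := U ≤ Submodule.span ℂ {v | v ∈ U ∧ ∀ a, ∃ q : ℚ, v a = q}

variable [Fintype B]

/-- the space is a Lie algebra -/
def IsLie (W : Submodule ℂ (Matrix B B ℂ)) : Prop := ∀ X ∈ W, ∀ Y ∈ W, X * Y - Y * X ∈ W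

/-- `φ` normalises `𝔪` -/
def Normalises (φ : Matrix B B ℂ) (𝔪 : Submodule ℂ (Matrix B B ℂ)) : Prop := ∀ Y ∈ 𝔪, φ * Y - Y * φ ∈ 𝔪

/-- the space which is spanned by the elements `X` of `𝔪` such that `[φ, X] = a X` with a negative integer `a` -/
def negative (𝔪 : Submodule ℂ (Matrix B B ℂ)) (φ : Matrix B B ℂ) : Submodule ℂ (Matrix B B ℂ) :=
  Submodule.span ℂ {X | X ∈ 𝔪 ∧ ∃ a : ℤ, a < 0 ∧ φ * X - X * φ = (a : ℂ) • X}

end lie

section mixed
variable {n r₀ : ℕ}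

/-- `W` is the weight filtration of a rational mixed Hodge structure and `φ` is an operator which splits the weight filtration
and the Hodge filtration, for example the operator of Deligne's splitting: the filtration `W` is finite and rational, it is
stable under `φ`, and `φ + conj φ` is the multiplication by `k` on `W_k / W_(k-1)`. -/
structure IsMixed (W : ℤ → Submodule ℂ (Fin n → ℂ)) (φ : Matrix (Fin n) (Fin n) ℂ) : Prop where
  /-- increasing -/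
  mono : Monotone W
  /-- `0` for small `k` -/
  bot : ∃ k, W k = ⊥
  /-- everything for large `k` -/
  top : ∃ k, W k = ⊤
  /-- rational -/
  rational : ∀ k, IsRationalSpace (W k)
  /-- stable -/
  stable : ∀ k, ∀ v ∈ W k, φ *ᵥ v ∈ W k
  /-- Hodge symmetry -/
  symmetric : ∀ k, ∀ v ∈ W k, φ *ᵥ v + φ.map star *ᵥ v - (k : ℂ) • v ∈ W (k - 1)

/-- no rational ideal `𝔦 ≠ 𝔪` of `𝔪` contains `[φ, 𝔪]`: the Hodge operator is not trivial on the quotients of `𝔪` -/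
def NoTrivialQuotient (𝔪 : Submodule ℂ (Matrix (Fin n) (Fin n) ℂ)) (φ : Matrix (Fin n) (Fin n) ℂ) : Prop :=
  ∀ 𝔦 : Submodule ℂ (Matrix (Fin n) (Fin n) ℂ), 𝔦 ≤ 𝔪 → IsRational 𝔦 → (∀ X ∈ 𝔪, ∀ Y ∈ 𝔦, X * Y - Y * X ∈ 𝔦) →
    (∀ X ∈ 𝔪, φ * X - X * φ ∈ 𝔦) → 𝔦 = 𝔪

/-- `𝔪` (in `𝔤'`) is a rational Lie algebra which respects the weight filtration `W` and is normalised by the Hodge operator `φ`
of the mixed Hodge structure `V_t`, and `φ` is in `φc + 𝔪`. -/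
structure IsMonodromy (𝔤' 𝔪 : Submodule ℂ (Matrix (Fin n) (Fin n) ℂ)) (W : ℤ → Submodule ℂ (Fin n → ℂ))
    (φc φ : Matrix (Fin n) (Fin n) ℂ) : Prop where
  /-- it is in `𝔤'` -/
  le : 𝔪 ≤ 𝔤'
  /-- rational -/
  rational : IsRational 𝔪
  /-- Lie algebra -/
  lie : IsLie 𝔪
  /-- it respects the weights -/
  weight : ∀ X ∈ 𝔪, ∀ k, ∀ v ∈ W k, X *ᵥ v ∈ W k
  /-- mixed Hodge structure -/
  mixed : IsMixed W φ
  /-- normalised by `φ` -/
  normal : Normalises φ 𝔪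
  /-- no trivial quotients -/
  nontrivial : NoTrivialQuotient 𝔪 φ
  /-- the variation is constant modulo `𝔪` -/
  constant : φ - φc ∈ 𝔪

/-- the space of all `X` with `0 ⊕ X ∈ 𝔥` -/
def inBlock (𝔥 : Submodule ℂ (Matrix (Fin r₀ ⊕ (Fin n × Fin 1)) (Fin r₀ ⊕ (Fin n × Fin 1)) ℂ)) :
    Submodule ℂ (Matrix (Fin n) (Fin n) ℂ) where
  carrier := {X | total 0 (fun _ : Fin 1 => X) ∈ 𝔥}
  zero_mem' := by
    have h : total (0 : Matrix (Fin r₀) (Fin r₀) ℂ) (fun _ : Fin 1 => (0 : Matrix (Fin n) (Fin n) ℂ)) = 0 :=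
      Pool.Agent.Helper880_EX.Tot_zero
    show total 0 (fun _ : Fin 1 => (0 : Matrix (Fin n) (Fin n) ℂ)) ∈ 𝔥
    rw [h]
    exact 𝔥.zero_mem
  add_mem' := by
    intro X Y hX hY
    have h : total (0 : Matrix (Fin r₀) (Fin r₀) ℂ) (fun _ : Fin 1 => X + Y) = total 0 (fun _ => X) + total 0 (fun _ => Y) :=
      Pool.Agent.Helper880_EX.Tot_add _ _
    show total 0 (fun _ : Fin 1 => X + Y) ∈ 𝔥
    rw [h]
    exact 𝔥.add_mem hX hY
  smul_mem' := by
    intro c X hX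
    have h : total (0 : Matrix (Fin r₀) (Fin r₀) ℂ) (fun _ : Fin 1 => c • X) = c • total 0 (fun _ => X) :=
      Pool.Agent.Helper880_EX.Tot_smul _ _
    show total 0 (fun _ : Fin 1 => c • X) ∈ 𝔥
    rw [h]
    exact 𝔥.smul_mem _ hX

/-- The rational tensor `f` in `V_0^(⊗ d₀) ⊗ V^(⊗ d)` is a Hodge tensor for the Hodge operators `φ₀` of `V_0` and `φ` of `V`: it is
an eigenvector of the Hodge operator on the tensor space, with an integral eigenvalue `q` (type `(q, q)`). -/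
def IsHodge {d₀ d : ℕ} (φ₀ : Matrix (Fin r₀) (Fin r₀) ℂ) (φ : Matrix (Fin n) (Fin n) ℂ)
    (f : (Fin d₀ → Fin r₀) → (Fin d → Fin n) → ℚ) : Prop :=
  ∃ q : ℤ, ∀ x y, (∑ k, ∑ a, φ₀ (x k) a * (f (Function.update x k a) y : ℂ)) +
    (∑ l, ∑ a, φ (y l) a * (f x (Function.update y l a) : ℂ)) = q * (f x y : ℂ)

/-- the tensor `f` in `V_0^(⊗ d₀) ⊗ V^(⊗ d)` is killed by `0 ⊕ 𝔪` -/
def Invariant {d₀ d : ℕ} (𝔪 : Submodule ℂ (Matrix (Fin n) (Fin n) ℂ)) (f : (Fin d₀ → Fin r₀) → (Fin d → Fin n) → ℚ) : Prop :=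
  ∀ X ∈ 𝔪, ∀ x y, ∑ l, ∑ a, X (y l) a * (f x (Function.update y l a) : ℂ) = 0

/-- The fibre is Hodge generic: all rational Lie algebras which contain the Hodge operator `φ₀ ⊕ φ` (for example the Lie
algebra of the Mumford–Tate group of `V_0 ⊕ V_t`) contain `0 ⊕ 𝔪`, and the Hodge tensors on `V_0` and `V_t` are exactly the
Hodge tensors for `φ₀` and `φc` which are killed by `0 ⊕ 𝔪`. -/
def Generic (φ₀ : Matrix (Fin r₀) (Fin r₀) ℂ) (φc φ : Matrix (Fin n) (Fin n) ℂ)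
    (𝔪 : Submodule ℂ (Matrix (Fin n) (Fin n) ℂ)) : Prop :=
  (∀ 𝔥 : Submodule ℂ (Matrix (Fin r₀ ⊕ (Fin n × Fin 1)) (Fin r₀ ⊕ (Fin n × Fin 1)) ℂ), IsRational 𝔥 → IsLie 𝔥 →
    total φ₀ (fun _ : Fin 1 => φ) ∈ 𝔥 → 𝔪 ≤ inBlock 𝔥) ∧
  ∀ (d₀ d : ℕ) (f : (Fin d₀ → Fin r₀) → (Fin d → Fin n) → ℚ), IsHodge φ₀ φ f ↔ IsHodge φ₀ φc f ∧ Invariant 𝔪 f

end mixed

section conclusion
variable {n N r₀ : ℕ}

/-- The sum of the codimensions of the special subvarieties through the points `t_1, …, t_N` is at most `r`: for all subspaces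
`𝔪_j` of `𝔤'` and all rational Lie algebras `𝔥_j` which contain the Hodge operator `φ₀ ⊕ φ_j` of `V_0 ⊕ V_j` we have
`∑ (dim 𝔪_j^- - dim (𝔪_j^- ∩ 𝔥_j)) ≤ r`. Here `𝔪_j^-` is the part of negative degree for `φ_j`. -/
def SumOfCodimensions (r : ℕ) (𝔤' : Submodule ℂ (Matrix (Fin n) (Fin n) ℂ)) (lev₀ : Fin r₀ → ℤ) (lev : Fin n → ℤ)
    (C₀ : Matrix (Fin r₀) (Fin r₀) ℂ) (P : Fin N → Matrix (Fin n) (Fin n) ℂ) : Prop :=
  ∀ (φ₀ : Matrix (Fin r₀) (Fin r₀) ℂ) (φ : Fin N → Matrix (Fin n) (Fin n) ℂ)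
    (𝔪 : Fin N → Submodule ℂ (Matrix (Fin n) (Fin n) ℂ))
    (𝔥 : Fin N → Submodule ℂ (Matrix (Fin r₀ ⊕ (Fin n × Fin 1)) (Fin r₀ ⊕ (Fin n × Fin 1)) ℂ)),
    Splits lev₀ C₀ φ₀ → (∀ j, Splits lev (P j) (φ j)) → (∀ j, 𝔪 j ≤ 𝔤') → (∀ j, IsRational (𝔥 j)) → (∀ j, IsLie (𝔥 j)) →
    (∀ j, total φ₀ (fun _ : Fin 1 => φ j) ∈ 𝔥 j) →
      ∑ j, Module.finrank ℂ (negative (𝔪 j) (φ j)) ≤
        ∑ j, Module.finrank ℂ (negative (𝔪 j) (φ j) ⊓ inBlock (𝔥 j) : Submodule ℂ (Matrix (Fin n) (Fin n) ℂ)) + r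

/-- At most `r` of the fibres are special: for all `𝔪`, weight filtrations `W`, `φ₀` and `φc`, and for all Hodge operators `φ_j` of
mixed Hodge structures which split the Hodge filtrations, there is a set `S` of at most `r` indices such that the fibres
with `j ∉ S` are Hodge generic. -/
def FewSpecial (r : ℕ) (𝔤' : Submodule ℂ (Matrix (Fin n) (Fin n) ℂ)) (lev₀ : Fin r₀ → ℤ) (lev : Fin n → ℤ)
    (C₀ : Matrix (Fin r₀) (Fin r₀) ℂ) (P : Fin N → Matrix (Fin n) (Fin n) ℂ) : Prop :=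
  ∀ (𝔪 : Submodule ℂ (Matrix (Fin n) (Fin n) ℂ)) (W : ℤ → Submodule ℂ (Fin n → ℂ)) (φ₀ : Matrix (Fin r₀) (Fin r₀) ℂ)
    (φc : Matrix (Fin n) (Fin n) ℂ) (φ : Fin N → Matrix (Fin n) (Fin n) ℂ), Splits lev₀ C₀ φ₀ →
    (∀ j, Splits lev (P j) (φ j)) → (∀ j, IsMonodromy 𝔤' 𝔪 W φc (φ j)) →
      ∃ S : Finset (Fin N), S.card ≤ r ∧ ∀ j ∉ S, Generic φ₀ φc (φ j) 𝔪

/-- both conclusions -/
def Conclusion (r : ℕ) (𝔤' : Submodule ℂ (Matrix (Fin n) (Fin n) ℂ)) (lev₀ : Fin r₀ → ℤ) (lev : Fin n → ℤ)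
    (C₀ : Matrix (Fin r₀) (Fin r₀) ℂ) (P : Fin N → Matrix (Fin n) (Fin n) ℂ) : Prop :=
  SumOfCodimensions r 𝔤' lev₀ lev C₀ P ∧ FewSpecial r 𝔤' lev₀ lev C₀ P

/-- The integer `t` is in the Hodge locus, relative to `V_0`: there is a Hodge operator `φ` of a mixed Hodge structure on `V_t`
which splits the Hodge filtration, such that `𝔪` is as in `IsMonodromy`, and the fibre is not Hodge generic. -/
def InHodgeLocus (C : Matrix (Fin n) (Fin n) ℂ) (M : Matrix (Fin n) (Fin n) ℚ) (Z : Matrix (Fin n) (Fin n) (PowerSeries ℚ))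
    (lev : Fin n → ℤ) (𝔤' 𝔪 : Submodule ℂ (Matrix (Fin n) (Fin n) ℂ)) (W : ℤ → Submodule ℂ (Fin n → ℂ))
    (φ₀ : Matrix (Fin r₀) (Fin r₀) ℂ) (φc : Matrix (Fin n) (Fin n) ℂ) (t : ℕ) : Prop :=
  IsUnit (period C M Z t) ∧ ∃ φ, Splits lev (period C M Z t) φ ∧ IsMonodromy 𝔤' 𝔪 W φc φ ∧ ¬ Generic φ₀ φc φ 𝔪

end conclusion

/-- the numbers `t_j` are distinct and congruent modulo `G`, and `(t_i - t_j + 2)^E ≤ t_j` -/
def InWindow (G E : ℕ) {N : ℕ} (t : Fin N → ℕ) : Prop :=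
  Function.Injective t ∧ (∀ i j, t i ≡ t j [MOD G]) ∧ ∀ i j, (t i - t j + 2) ^ E ≤ t j

theorem iter_eq {r : ℕ} (T : Polynomial ℤ) (A : Fin r → Fin r → Polynomial ℤ) (s : ℕ) :
    iter T A s = Pool.Agent.Y120.GH.itm T A s := by
  induction s with
  | zero => rfl
  | succ s ih =>
    funext i j
    rw [iter, Pool.Agent.Y120.GH.itm, ih]

theorem qu_eq {r : ℕ} {T : Polynomial ℤ} {A : Fin r → Fin r → Polynomial ℤ} (h : QuasiUnipotent T A) :
    Pool.Agent.Y120.GH.QU0 T A := by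
  obtain ⟨e, M, K, Φ, he, hdet, hc, heq⟩ := h
  have he0 : e ≠ 0 := by omega
  refine ⟨e, he0, M, K, Φ, hc, fun i j n => ?_, hdet⟩
  have h1 := heq i j n
  simp only [atPow] at h1
  rw [Pool.Agent.Y120.GH.expand_poly he0]
  simp only [Pool.Agent.Y120.GH.expand_poly he0]
  exact h1

theorem gal_eq {r : ℕ} {T : Polynomial ℤ} {A : Fin r → Fin r → Polynomial ℤ} {h : Fin r → PowerSeries ℚ}
    (hG : GFamily T A h) : ∃ C : ℝ, ∀ m, ∃ d : ℕ, 0 < d ∧ (d : ℝ) ≤ C ^ (m + 1) ∧ ∀ s ≤ m, ∀ i j, ∃ H : Polynomial ℤ,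
      (d : Polynomial ℤ) * Pool.Agent.Y120.GH.itm T A s i j = (s.factorial : Polynomial ℤ) * H := by
  obtain ⟨C, hC⟩ := hG.galochkin
  refine ⟨C, fun m => ?_⟩
  obtain ⟨d, h1, h2, h3⟩ := hC m
  refine ⟨d, h1, h2, fun s hs i' j' => ?_⟩
  rw [← iter_eq]
  exact h3 s hs i' j'

theorem map_eq {n : ℕ} (M : Matrix (Fin n) (Fin n) ℚ) : toC M = Pool.Agent.Y119.HY.cm M := by
  ext i j
  rw [Pool.Agent.Y119.HY.cm_apply]
  rfl

theorem sym_inf {n : ℕ} {Z : Matrix (Fin n) (Fin n) (PowerSeries ℚ)} {X : Matrix (Fin n) (Fin n) ℂ} (h : Symmetry Z X) :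
    Pool.Agent.Helper880_R3.Inf Z X := by
  intro R hR
  refine Eq.trans ?_ (h R hR)
  unfold Pool.Agent.Helper880_R3.DX
  rw [map_sum]
  refine Finset.sum_congr rfl fun b _ => ?_
  rw [map_mul, map_sum, Matrix.mul_apply]
  refine congrArg₂ (· * ·) rfl (Finset.sum_congr rfl fun l _ => ?_)
  rw [map_mul, MvPolynomial.aeval_C, MvPolynomial.aeval_X, Matrix.map_apply, Matrix.map_apply]
  have h1 : algebraMap (Polynomial ℂ) (PowerSeries ℂ) (Polynomial.C (X b.1 l)) = PowerSeries.C (X b.1 l) :=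
    Polynomial.coe_C _
  rw [h1]
  rfl

theorem alg_mem {ι : Type} (b : ι → ℂ) (k : ι) : IsAlgebraic (IntermediateField.adjoin ℚ (Set.range b)) (b k) := by
  have h1 : b k ∈ IntermediateField.adjoin ℚ (Set.range b) := IntermediateField.subset_adjoin ℚ _ ⟨k, rfl⟩
  exact isAlgebraic_algebraMap (⟨b k, h1⟩ : IntermediateField.adjoin ℚ (Set.range b))

theorem all_few {r n : ℕ} (C₀ : Matrix (Fin r) (Fin r) ℂ) (C : Matrix (Fin n) (Fin n) ℂ) : ∃ s, FewPeriods s C₀ C := by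
  set e := Fintype.equivFin ((Fin r × Fin r) ⊕ (Fin n × Fin n)) with he
  refine ⟨Fintype.card ((Fin r × Fin r) ⊕ (Fin n × Fin n)), fun k => Sum.elim (fun p => C₀ p.1 p.2) (fun p => C p.1 p.2)
    (e.symm k), 1, one_ne_zero, fun i j => ?_, fun i j => ?_⟩
  · have h1 := alg_mem (fun k => Sum.elim (fun p => C₀ p.1 p.2) (fun p => C p.1 p.2) (e.symm k)) (e (Sum.inl (i, j)))
    rw [one_mul]
    simpa using h1
  · have h1 := alg_mem (fun k => Sum.elim (fun p => C₀ p.1 p.2) (fun p => C p.1 p.2) (e.symm k)) (e (Sum.inr (i, j)))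
    rw [one_mul]
    simpa using h1

theorem total_unit {r n N : ℕ} {C₀ : Matrix (Fin r) (Fin r) ℂ} {P : Fin N → Matrix (Fin n) (Fin n) ℂ} (h₀ : IsUnit C₀)
    (h : ∀ j, IsUnit (P j)) : IsUnit (total C₀ P) := by
  unfold total
  rw [Matrix.isUnit_fromBlocks_zero₁₂, Matrix.isUnit_iff_isUnit_det (Matrix.blockDiagonal P), Matrix.det_blockDiagonal]
  refine ⟨h₀, ?_⟩
  rw [isUnit_iff_ne_zero, Finset.prod_ne_zero_iff]
  intro j _
  exact ((Matrix.isUnit_iff_isUnit_det _).1 (h j)).ne_zero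

theorem rat_eq {B : Type} {W : Submodule ℂ (Matrix B B ℂ)} :
    IsRational W ↔ Pool.Agent.Helper880_ZP.DefOver Pool.Agent.Helper880_ZP.K₀ W := by
  have h : {X | X ∈ W ∧ ∀ a b, ∃ q : ℚ, X a b = q} = {X | X ∈ W ∧ ∀ a b, X a b ∈ Pool.Agent.Helper880_ZP.K₀} := by
    ext X
    simp only [Pool.Agent.Helper880_ZP.mem_K₀]
  unfold IsRational Pool.Agent.Helper880_ZP.DefOver
  rw [h]
  exact ⟨fun h1 => le_antisymm h1 (Submodule.span_le.2 fun X hX => hX.1), fun h1 => h1.le⟩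

theorem hodge_eq {n r₀ d₀ d : ℕ} {φ₀ : Matrix (Fin r₀) (Fin r₀) ℂ} {φ : Matrix (Fin n) (Fin n) ℂ}
    {f : (Fin d₀ → Fin r₀) → (Fin d → Fin n) → ℚ} : IsHodge φ₀ φ f ↔
      ∃ q : ℤ, Pool.Agent.Helper880_HC.act (fun _ : Fin d => (0 : Fin 1)) φ₀ (fun _ => φ) (Pool.Agent.Helper880_HC.tC f) =
        (q : ℂ) • Pool.Agent.Helper880_HC.tC f := by
  constructor
  · rintro ⟨q, hq⟩
    refine ⟨q, ?_⟩
    funext x y
    rw [Pool.Agent.Helper880_HC.act_apply]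
    exact hq x y
  · rintro ⟨q, hq⟩
    refine ⟨q, fun x y => ?_⟩
    have h1 := congrFun (congrFun hq x) y
    rw [Pool.Agent.Helper880_HC.act_apply] at h1
    exact h1

theorem inv_eq {n r₀ d₀ d : ℕ} {𝔪 : Submodule ℂ (Matrix (Fin n) (Fin n) ℂ)} {f : (Fin d₀ → Fin r₀) → (Fin d → Fin n) → ℚ} :
    Invariant 𝔪 f ↔ ∀ j, ∀ X ∈ 𝔪,
      Pool.Agent.Helper880_HC.one (fun _ : Fin d => (0 : Fin 1)) (Pool.Agent.Helper880_HC.tC f) j X = 0 := by
  constructor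
  · intro h j X hX
    funext x y
    rw [Pool.Agent.Helper880_HC.one_sum, Subsingleton.elim j 0]
    simp only [if_true]
    exact h X hX x y
  · intro h X hX x y
    have h1 := congrFun (congrFun (h 0 X hX) x) y
    rw [Pool.Agent.Helper880_HC.one_sum] at h1
    simp only [if_true] at h1
    exact h1

theorem mxd_of {n : ℕ} {W : ℤ → Submodule ℂ (Fin n → ℂ)} {φ : Matrix (Fin n) (Fin n) ℂ} (h : IsMixed W φ) :
    Pool.Agent.Helper880_MX.Mxd W φ :=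
  ⟨h.mono, h.bot, h.top, h.rational, h.stable, h.symmetric⟩

theorem ntq_of {n : ℕ} {𝔪 : Submodule ℂ (Matrix (Fin n) (Fin n) ℂ)} {φ : Matrix (Fin n) (Fin n) ℂ}
    (h : NoTrivialQuotient 𝔪 φ) : Pool.Agent.Helper880_MX.NTQ 𝔪 φ :=
  fun 𝔦 h1 h2 h3 h4 => (h 𝔦 h1 (rat_eq.2 h2) h3 h4).ge

theorem block_eq {n r₀ : ℕ} (𝔥 : Submodule ℂ (Matrix (Fin r₀ ⊕ (Fin n × Fin 1)) (Fin r₀ ⊕ (Fin n × Fin 1)) ℂ)) :
    inBlock 𝔥 = 𝔥.comap (Pool.Agent.Helper880_R3.ib (r₀ := r₀) (0 : Fin 1)) := by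
  ext X
  rw [Submodule.mem_comap, Pool.Agent.Helper880_MX.ib_zero]
  exact Iff.rfl

/-- a fibre which is not generic has a small Lie algebra -/
theorem not_generic {n r₀ : ℕ} {𝔤' 𝔪 : Submodule ℂ (Matrix (Fin n) (Fin n) ℂ)} {W : ℤ → Submodule ℂ (Fin n → ℂ)}
    {φ₀ : Matrix (Fin r₀) (Fin r₀) ℂ} {φc φ : Matrix (Fin n) (Fin n) ℂ} (h : IsMonodromy 𝔤' 𝔪 W φc φ)
    (hg : ¬ Generic φ₀ φc φ 𝔪) : ∃ 𝔥 : Submodule ℂ (Matrix (Fin r₀ ⊕ (Fin n × Fin 1)) (Fin r₀ ⊕ (Fin n × Fin 1)) ℂ),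
      IsRational 𝔥 ∧ IsLie 𝔥 ∧ total φ₀ (fun _ : Fin 1 => φ) ∈ 𝔥 ∧ ¬ 𝔪 ≤ inBlock 𝔥 := by
  by_contra hcon
  refine hg ⟨fun 𝔥 h1 h2 h3 => ?_, fun d₀ d f => ?_⟩
  · by_contra h4
    exact hcon ⟨𝔥, h1, h2, h3, h4⟩
  · have h5 : 𝔪 ≤ inBlock (Pool.Agent.Helper880_EX.mtB φ₀ (fun _ : Fin 1 => φ)) := by
      by_contra h4
      exact hcon ⟨_, rat_eq.2 Pool.Agent.Helper880_EX.mtB_rat, Pool.Agent.Helper880_EX.mtB_lie,
        Pool.Agent.Helper880_EX.mtB_phi, h4⟩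
    rw [hodge_eq, hodge_eq, inv_eq]
    refine Pool.Agent.Helper880_MX.hodgeM h.lie (rat_eq.1 h.rational) h.normal (ntq_of h.nontrivial) (fun X hX => ?_) h.constant
    have h6 := h5 hX
    rw [block_eq] at h6
    exact h6

/-- the codimension of a small Lie algebra is not zero -/
theorem codim_pos {n r₀ : ℕ} {lev : Fin n → ℤ} {Q : Matrix (Fin n) (Fin n) ℂ} {𝔤' 𝔪 : Submodule ℂ (Matrix (Fin n) (Fin n) ℂ)}
    {W : ℤ → Submodule ℂ (Fin n → ℂ)} {φ₀ : Matrix (Fin r₀) (Fin r₀) ℂ} {φc φ : Matrix (Fin n) (Fin n) ℂ}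
    (hE : Pool.Agent.Helper880_ZP.Eig lev Q φ) (h : IsMonodromy 𝔤' 𝔪 W φc φ)
    {𝔥 : Submodule ℂ (Matrix (Fin r₀ ⊕ (Fin n × Fin 1)) (Fin r₀ ⊕ (Fin n × Fin 1)) ℂ)} (h1 : IsRational 𝔥) (h2 : IsLie 𝔥)
    (h3 : total φ₀ (fun _ : Fin 1 => φ) ∈ 𝔥) (h4 : ¬ 𝔪 ≤ inBlock 𝔥) :
    Module.finrank ℂ (negative 𝔪 φ ⊓ inBlock 𝔥 : Submodule ℂ (Matrix (Fin n) (Fin n) ℂ)) + 1 ≤
      Module.finrank ℂ (negative 𝔪 φ) := by
  by_contra hcon
  have h6 : Module.finrank ℂ (negative 𝔪 φ ⊓ inBlock 𝔥 : Submodule ℂ (Matrix (Fin n) (Fin n) ℂ)) ≤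
      Module.finrank ℂ (negative 𝔪 φ) := Submodule.finrank_mono inf_le_left
  have h7 : negative 𝔪 φ ⊓ inBlock 𝔥 = negative 𝔪 φ := Submodule.eq_of_le_of_finrank_le inf_le_left (by omega)
  have h8 : negative 𝔪 φ ≤ inBlock 𝔥 := by
    rw [← h7]
    exact inf_le_right
  obtain ⟨k1, k2, k3⟩ := Pool.Agent.Helper880_MX.cut (φ₀ := φ₀) h.lie (rat_eq.1 h.rational) h.normal h2 (rat_eq.1 h1) h3
  have h9 := Pool.Agent.Helper880_MX.full hE (mxd_of h.mixed) (rat_eq.1 h.rational) h.lie h.normal h.weight (ntq_of h.nontrivial)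
    (𝔫 := 𝔪 ⊓ 𝔥.comap (Pool.Agent.Helper880_R3.ib (r₀ := r₀) (0 : Fin 1))) inf_le_left k1 k2 k3
    (le_inf (Pool.Agent.Helper880_EX.ngS_le _ _) (by rw [← block_eq]; exact h8))
  refine h4 (h9.trans ?_)
  rw [block_eq]
  exact inf_le_right

theorem concl {n N r₀ r : ℕ} {𝔤 : Submodule ℂ (Matrix (Fin n) (Fin n) ℂ)} {lev₀ : Fin r₀ → ℤ} {lev : Fin n → ℤ}
    {C₀ : Matrix (Fin r₀) (Fin r₀) ℂ} {C : Matrix (Fin n) (Fin n) ℂ} {P : Fin N → Matrix (Fin n) (Fin n) ℂ}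
    (hu : IsUnit (total C₀ P))
    (h : ∀ 𝔥 : Submodule ℂ (Matrix (Fin r₀ ⊕ (Fin n × Fin N)) (Fin r₀ ⊕ (Fin n × Fin N)) ℂ),
      Pool.Agent.Helper880_ZP.DefOver Pool.Agent.Helper880_ZP.K₀ 𝔥 → Pool.Agent.Helper880_ZP.Lie' 𝔥 →
      (∃ φ ∈ 𝔥, ∃ V ∈ Pool.Agent.Helper880_ZP.upS ℂ (Pool.Agent.Helper880_ZP.Lv N lev₀ lev),
        φ * (total C₀ P * (1 + V)) = total C₀ P * (1 + V) * Pool.Agent.Helper880_ZP.Dg ℂ (Pool.Agent.Helper880_ZP.Lv N lev₀ lev)) →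
      Module.finrank ℂ (Pool.Agent.Helper880_ZP.blS r₀ N (Pool.Agent.Helper880_ZP.cgS C 𝔤)) ≤
        Module.finrank ℂ (Pool.Agent.Helper880_ZP.blS r₀ N (Pool.Agent.Helper880_ZP.cgS C 𝔤) ⊓
          (𝔥 ⊔ Pool.Agent.Helper880_ZP.cjS (total C₀ P)
            (Pool.Agent.Helper880_ZP.ppS ℂ (Pool.Agent.Helper880_ZP.Lv N lev₀ lev))) : Submodule ℂ _) + r) :
    Conclusion r (conjugate C 𝔤) lev₀ lev C₀ P := by
  have hsum : SumOfCodimensions r (conjugate C 𝔤) lev₀ lev C₀ P := by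
    intro φ₀ φ 𝔪 𝔥 h0 hsp hm hr hL hφ
    have hr' : ∀ j, Pool.Agent.Helper880_ZP.DefOver Pool.Agent.Helper880_ZP.K₀ (𝔥 j) := fun j => rat_eq.1 (hr j)
    have hL' : ∀ j, Pool.Agent.Helper880_ZP.Lie' (𝔥 j) := hL
    obtain ⟨⟨V, hV, hVe⟩, hblk⟩ := Pool.Agent.Helper880_ZP.blk hu h0 hsp
    have hud := (Matrix.isUnit_iff_isUnit_det _).1 hu
    obtain ⟨hEig, hcj⟩ := Pool.Agent.Helper880_ZP.Eig.mk' hud hV hVe
    have hc1 := h (Pool.Agent.Helper880_EX.prH 𝔥) (Pool.Agent.Helper880_EX.prH_rat hr') (Pool.Agent.Helper880_EX.prH_lie hL')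
      ⟨_, ⟨φ₀, φ, rfl, hφ⟩, V, hV, hVe⟩
    have hc2 : Module.finrank ℂ (Pool.Agent.Helper880_ZP.blS r₀ N (Pool.Agent.Helper880_ZP.cgS C 𝔤)) ≤
        Module.finrank ℂ (Pool.Agent.Helper880_ZP.blS r₀ N (Pool.Agent.Helper880_ZP.cgS C 𝔤) ⊓
          (Pool.Agent.Helper880_EX.prH 𝔥 ⊔ Pool.Agent.Helper880_ZP.cjS (total C₀ P * (1 + V))
            (Pool.Agent.Helper880_ZP.ppS ℂ (Pool.Agent.Helper880_ZP.Lv N lev₀ lev))) : Submodule ℂ _) + r := by
      rw [hcj]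
      exact hc1
    have h1 := Pool.Agent.Helper880_MX.sum_cod (𝔪 := 𝔪)
      (𝔊 := Pool.Agent.Helper880_ZP.blS r₀ N (Pool.Agent.Helper880_ZP.cgS C 𝔤)) hEig hL' hφ
      (fun Z hZ => ⟨Z, fun j => hm j (hZ j), rfl⟩) hc2
    have h2 : ∀ j, inBlock (𝔥 j) = (𝔥 j).comap (Pool.Agent.Helper880_R3.ib (r₀ := r₀) (0 : Fin 1)) := fun j => block_eq _
    refine h1.trans (le_of_eq ?_)
    congr 1
    refine Finset.sum_congr rfl fun j _ => ?_
    rw [h2]
    rfl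
  refine ⟨hsum, fun 𝔪 W φ₀ φc φ h0 hsp hmon => ?_⟩
  classical
  obtain ⟨-, hblk⟩ := Pool.Agent.Helper880_ZP.blk hu h0 hsp
  set S : Finset (Fin N) := Finset.univ.filter fun j => ¬ Generic φ₀ φc (φ j) 𝔪 with hS
  have hex : ∀ j, ∃ 𝔥 : Submodule ℂ (Matrix (Fin r₀ ⊕ (Fin n × Fin 1)) (Fin r₀ ⊕ (Fin n × Fin 1)) ℂ),
      IsRational 𝔥 ∧ IsLie 𝔥 ∧ total φ₀ (fun _ : Fin 1 => φ j) ∈ 𝔥 ∧ (j ∈ S → ¬ 𝔪 ≤ inBlock 𝔥) := by
    intro j
    by_cases hj : j ∈ S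
    · obtain ⟨𝔥, h1, h2, h3, h4⟩ := not_generic (hmon j) (Finset.mem_filter.1 hj).2
      exact ⟨𝔥, h1, h2, h3, fun _ => h4⟩
    · refine ⟨⊤, rat_eq.2 (Pool.Agent.Helper880_EX.rat_of fun μ Y _ => Submodule.mem_top), fun X _ Y _ => Submodule.mem_top,
        Submodule.mem_top, fun h => absurd h hj⟩
  choose 𝔥 h1 h2 h3 h4 using hex
  have h5 := hsum φ₀ φ (fun _ => 𝔪) 𝔥 h0 hsp (fun j => (hmon j).le) h1 h2 h3
  have h6 : ∀ j, Module.finrank ℂ (negative 𝔪 (φ j) ⊓ inBlock (𝔥 j) : Submodule ℂ (Matrix (Fin n) (Fin n) ℂ)) +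
      (if j ∈ S then 1 else 0) ≤ Module.finrank ℂ (negative 𝔪 (φ j)) := by
    intro j
    by_cases hj : j ∈ S
    · rw [if_pos hj]
      obtain ⟨R, hR⟩ := hblk j
      exact codim_pos hR (hmon j) (h1 j) (h2 j) (h3 j) (h4 j hj)
    · rw [if_neg hj, add_zero]
      exact Submodule.finrank_mono inf_le_left
  have h7 := Finset.sum_le_sum fun (j : Fin N) (_ : j ∈ Finset.univ) => h6 j
  rw [Finset.sum_add_distrib, Finset.sum_ite_mem, Finset.univ_inter, Finset.sum_const, smul_eq_mul, mul_one] at h7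
  refine ⟨S, ?_, fun j hj => ?_⟩
  · omega
  · by_contra hg
    exact hj (Finset.mem_filter.2 ⟨Finset.mem_univ _, hg⟩)

theorem per_eq {n : ℕ} (C : Matrix (Fin n) (Fin n) ℂ) (M : Matrix (Fin n) (Fin n) ℚ) (Z : Matrix (Fin n) (Fin n) (PowerSeries ℚ))
    (t : ℕ) : period C M Z t = C * (NormedSpace.exp ((-((Real.log (t : ℝ) : ℝ) : ℂ)) • Pool.Agent.Y119.HY.cm M) *
      Pool.Agent.Y118.HV.Hv Z t) := by
  unfold period
  rw [map_eq]
  rfl

theorem windows (n : ℕ) (hn : 0 < n) (T : Polynomial ℤ) (A : Fin (n * n) → Fin (n * n) → Polynomial ℤ)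
    (Z : Matrix (Fin n) (Fin n) (PowerSeries ℚ)) (hG : GFamily T A (entries Z)) (M : Matrix (Fin n) (Fin n) ℚ)
    (hM : M ^ n = 0) (𝔤 : Submodule ℂ (Matrix (Fin n) (Fin n) ℂ)) (hI : ∀ X ∈ 𝔤, Symmetry Z X)
    (hM𝔤 : ∀ X ∈ 𝔤, toC M * X - X * toC M ∈ 𝔤) :
    ∃ G : ℕ, 1 ≤ G ∧ ∀ (N r₀ s r : ℕ) (C₀ : Matrix (Fin r₀) (Fin r₀) ℂ) (C : Matrix (Fin n) (Fin n) ℂ)
      (lev₀ : Fin r₀ → ℤ) (lev : Fin n → ℤ), 0 < N → FewPeriods s C₀ C → s + (if M = 0 then 0 else 1) ≤ r →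
      ∃ E : ℕ, ∀ t : Fin N → ℕ, InWindow G E t → IsUnit (total C₀ fun j => period C M Z (t j)) →
        Conclusion r (conjugate C 𝔤) lev₀ lev C₀ fun j => period C M Z (t j) := by
  obtain ⟨q', C', hG'⟩ := Pool.Agent.Y120.GH.gsys_of hG.ode hG.size hG.den (gal_eq hG)
  rw [map_eq] at hM𝔤
  obtain ⟨G, hG1, h⟩ := Pool.Agent.Helper880_ZP.two hn hG.T_ne hG.ode hG' (qu_eq hG.regular)
    (fun X hX => sym_inf (hI X hX)) hM hM𝔤
  refine ⟨G, hG1, fun N r₀ s r C₀ C lev₀ lev hN hfew hs => ?_⟩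
  obtain ⟨E, hE⟩ := h N 1 r₀ s r C₀ C lev₀ lev hN hfew hs
  exact ⟨E, fun t ht hu => concl hu fun 𝔥 h1 h2 h3 =>
    (hE t ht.1 ht.2.1 ht.2.2 (fun j => period C M Z (t j)) (funext fun j => per_eq _ _ _ _) hu 𝔥 h1).2 h2 h3⟩

theorem value_sc {n : ℕ} (Z : Matrix (Fin n) (Fin n) (PowerSeries ℚ)) (g : ℤ) (t : ℕ) :
    Pool.Agent.Y118.HV.Hv (Pool.Agent.Helper880_UN.scZ g Z) t = valueAt Z ((g : ℝ) / t) := by
  ext i j
  show ((∑' k : ℕ, ((coeff k (rescale (g : ℚ) (Z i j)) : ℚ) : ℝ) * (1 / (t : ℝ)) ^ k : ℝ) : ℂ) =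
    ((∑' k : ℕ, ((coeff k (Z i j) : ℚ) : ℝ) * ((g : ℝ) / t) ^ k : ℝ) : ℂ)
  congr 2
  funext k
  rw [coeff_rescale]
  push_cast
  rw [div_pow, div_pow, one_pow]
  ring

theorem rational (n : ℕ) (hn : 0 < n) (T : Polynomial ℤ) (A : Fin (n * n) → Fin (n * n) → Polynomial ℤ)
    (Z : Matrix (Fin n) (Fin n) (PowerSeries ℚ)) (hG : GFamily T A (entries Z)) (M : Matrix (Fin n) (Fin n) ℚ)
    (hM : M ^ n = 0) (𝔤 : Submodule ℂ (Matrix (Fin n) (Fin n) ℂ)) (hI : ∀ X ∈ 𝔤, Symmetry Z X)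
    (hM𝔤 : ∀ X ∈ 𝔤, toC M * X - X * toC M ∈ 𝔤) (r₀ s r : ℕ) (C₀ : Matrix (Fin r₀) (Fin r₀) ℂ) (C : Matrix (Fin n) (Fin n) ℂ)
    (lev₀ : Fin r₀ → ℤ) (lev : Fin n → ℤ) (hfew : FewPeriods s C₀ C) (hs : s + (if M = 0 then 0 else 1) ≤ r) :
    ∃ E : ℕ, ∀ (g : ℤ) (t : ℕ), g ≠ 0 → (g.natAbs + 2) ^ E ≤ t → ∀ L : ℂ,
      IsUnit (total C₀ fun _ : Fin 1 => periodAt C M L Z ((g : ℝ) / t)) →
      Conclusion r (conjugate C 𝔤) lev₀ lev C₀ fun _ : Fin 1 => periodAt C M L Z ((g : ℝ) / t) := by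
  obtain ⟨q', C', hG'⟩ := Pool.Agent.Y120.GH.gsys_of hG.ode hG.size hG.den (gal_eq hG)
  rw [map_eq] at hM𝔤
  obtain ⟨E, hE⟩ := Pool.Agent.Helper880_UN.two_uni (N := 1) hn (Pool.Agent.Helper880_UN.uf_scZ hG.T_ne hG')
    (fun g X hX => by
      have h1 : X = fun _ => X 0 := funext fun j => by rw [Subsingleton.elim j 0]
      rw [h1]
      exact Pool.Agent.Helper880_UN.infJ_sc (sym_inf (hI _ (hX 0))) g.2) hM hM𝔤 1 r₀ s r C₀ C lev₀ lev hfew hs
  refine ⟨E, fun g t hg ht L hu => concl hu fun 𝔥 h1 h2 h3 =>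
    (hE ⟨g, hg⟩ t ht L (fun _ => periodAt C M L Z ((g : ℝ) / t)) ?_ hu 𝔥 h1).2 h2 h3⟩
  funext j
  unfold periodAt
  rw [map_eq, value_sc]

theorem count (n : ℕ) (hn : 0 < n) (T : Polynomial ℤ) (A : Fin (n * n) → Fin (n * n) → Polynomial ℤ)
    (Z : Matrix (Fin n) (Fin n) (PowerSeries ℚ)) (hG : GFamily T A (entries Z)) (M : Matrix (Fin n) (Fin n) ℚ)
    (hM : M ^ n = 0) (𝔤 : Submodule ℂ (Matrix (Fin n) (Fin n) ℂ)) (hI : ∀ X ∈ 𝔤, Symmetry Z X)
    (hM𝔤 : ∀ X ∈ 𝔤, toC M * X - X * toC M ∈ 𝔤) (r₀ : ℕ) (C₀ : Matrix (Fin r₀) (Fin r₀) ℂ) (C : Matrix (Fin n) (Fin n) ℂ)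
    (lev₀ : Fin r₀ → ℤ) (lev : Fin n → ℤ) (hC₀ : IsUnit C₀) :
    ∃ K δ : ℝ, 0 < δ ∧ ∀ (𝔪 : Submodule ℂ (Matrix (Fin n) (Fin n) ℂ)) (W : ℤ → Submodule ℂ (Fin n → ℂ))
        (φ₀ : Matrix (Fin r₀) (Fin r₀) ℂ) (φc : Matrix (Fin n) (Fin n) ℂ), Splits lev₀ C₀ φ₀ → ∀ x : ℕ, 1 ≤ x →
          (({t | InHodgeLocus C M Z lev (conjugate C 𝔤) 𝔪 W φ₀ φc t ∧ t ≤ x}.ncard : ℕ) : ℝ) ≤ K * (x : ℝ) ^ (1 - δ) := by
  have hw := windows n hn T A Z hG M hM 𝔤 hI hM𝔤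
  obtain ⟨G, hG1, h⟩ := hw
  obtain ⟨s, hs⟩ := all_few C₀ C
  set r := s + (if M = 0 then 0 else 1) with hr
  obtain ⟨E, hE⟩ := h (r + 1) r₀ s r C₀ C lev₀ lev (Nat.succ_pos r) hs le_rfl
  obtain ⟨K, δ, hδ, hK⟩ := Pool.Agent.Helper880_AJ.count_win (G := G) (E := E) (N := r + 1) (by omega) (Nat.succ_pos r)
  refine ⟨K, δ, hδ, fun 𝔪 W φ₀ φc h0 x hx => ?_⟩
  refine hK {t | InHodgeLocus C M Z lev (conjugate C 𝔤) 𝔪 W φ₀ φc t} ?_ x hx
  intro t ht1 ht2 ht3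
  by_contra hcon
  simp only [not_exists, not_not] at hcon
  choose hu φ hφ hmon hgen using hcon
  obtain ⟨S, hS, hS'⟩ := (hE t ⟨ht1, ht2, ht3⟩ (total_unit hC₀ hu)).2 𝔪 W φ₀ φc φ h0 hφ hmon
  obtain ⟨j, hj⟩ : ∃ j, j ∉ S := by
    by_contra hc
    simp only [not_exists, not_not] at hc
    have h1 : S = Finset.univ := Finset.eq_univ_of_forall hc
    rw [h1, Finset.card_univ, Fintype.card_fin] at hS
    omega
  exact hgen j (hS' j hj)

/-- **The theorem.** -/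
theorem result (n : ℕ) (hn : 0 < n) (T : Polynomial ℤ) (A : Fin (n * n) → Fin (n * n) → Polynomial ℤ)
    (Z : Matrix (Fin n) (Fin n) (PowerSeries ℚ)) (hG : GFamily T A (entries Z)) (M : Matrix (Fin n) (Fin n) ℚ)
    (hM : M ^ n = 0) (𝔤 : Submodule ℂ (Matrix (Fin n) (Fin n) ℂ)) (hI : ∀ X ∈ 𝔤, Symmetry Z X)
    (hM𝔤 : ∀ X ∈ 𝔤, toC M * X - X * toC M ∈ 𝔤) :
    (∃ G : ℕ, 1 ≤ G ∧ ∀ (N r₀ s r : ℕ) (C₀ : Matrix (Fin r₀) (Fin r₀) ℂ) (C : Matrix (Fin n) (Fin n) ℂ)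
      (lev₀ : Fin r₀ → ℤ) (lev : Fin n → ℤ), 0 < N → FewPeriods s C₀ C → s + (if M = 0 then 0 else 1) ≤ r →
      ∃ E : ℕ, ∀ t : Fin N → ℕ, InWindow G E t → IsUnit (total C₀ fun j => period C M Z (t j)) →
        Conclusion r (conjugate C 𝔤) lev₀ lev C₀ fun j => period C M Z (t j)) ∧
    (∀ (r₀ s r : ℕ) (C₀ : Matrix (Fin r₀) (Fin r₀) ℂ) (C : Matrix (Fin n) (Fin n) ℂ) (lev₀ : Fin r₀ → ℤ)
      (lev : Fin n → ℤ), FewPeriods s C₀ C → s + (if M = 0 then 0 else 1) ≤ r →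
      ∃ E : ℕ, ∀ (g : ℤ) (t : ℕ), g ≠ 0 → (g.natAbs + 2) ^ E ≤ t → ∀ L : ℂ,
        IsUnit (total C₀ fun _ : Fin 1 => periodAt C M L Z ((g : ℝ) / t)) →
        Conclusion r (conjugate C 𝔤) lev₀ lev C₀ fun _ : Fin 1 => periodAt C M L Z ((g : ℝ) / t)) ∧
    ∀ (r₀ : ℕ) (C₀ : Matrix (Fin r₀) (Fin r₀) ℂ) (C : Matrix (Fin n) (Fin n) ℂ) (lev₀ : Fin r₀ → ℤ) (lev : Fin n → ℤ),
      IsUnit C₀ → ∃ K δ : ℝ, 0 < δ ∧ ∀ (𝔪 : Submodule ℂ (Matrix (Fin n) (Fin n) ℂ)) (W : ℤ → Submodule ℂ (Fin n → ℂ))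
        (φ₀ : Matrix (Fin r₀) (Fin r₀) ℂ) (φc : Matrix (Fin n) (Fin n) ℂ), Splits lev₀ C₀ φ₀ → ∀ x : ℕ, 1 ≤ x →
          (({t | InHodgeLocus C M Z lev (conjugate C 𝔤) 𝔪 W φ₀ φc t ∧ t ≤ x}.ncard : ℕ) : ℝ) ≤ K * (x : ℝ) ^ (1 - δ) :=
  ⟨windows n hn T A Z hG M hM 𝔤 hI hM𝔤, fun r₀ s r C₀ C lev₀ lev hfew hs =>
    rational n hn T A Z hG M hM 𝔤 hI hM𝔤 r₀ s r C₀ C lev₀ lev hfew hs, fun r₀ C₀ C lev₀ lev hC₀ =>
    count n hn T A Z hG M hM 𝔤 hI hM𝔤 r₀ C₀ C lev₀ lev hC₀⟩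

end Pool.Agent.Results.MP_eeb1a4_ag.MixedIntegralPoints
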